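import Pool.Agent.helper45.SGC.Spec

/-!
# Row `sy:CMP` of project SGC (`MP_069684_lc`)
-/

set_option autoImplicit false

namespace Pool.Agent.SGC

open Finset Pool.Agent.helper38.Neg Pool.Agent.helper55.NT

/-- one gate applied to available functions -/
theorem CMP_gate {n m : ℕ} {F : Set (Fn n)} (v : Fin m → Fn n) (hv : ∀ i, v i ∈ F) (g : Gate m) :
    RN F 1 {fun x => g.eval (fun i => v i x)} := by
  cases g with
  | const b => exact (Rel.const F b).mono le_rfl le_rfl le_rfl (by omega)
  | and i j => exact (Rel.and (hv i) (hv j)).mono le_rfl le_rfl le_rfl (by omega)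
  | or i j => exact (Rel.or (hv i) (hv j)).mono le_rfl le_rfl le_rfl (by omega)
  | not i => exact (Rel.not (hv i)).mono le_rfl le_rfl le_rfl (by omega)

theorem CMP : CMP_stmt := by
  intro N n s C u
  induction C with
  | nil =>
    refine RN.mono (Rel.sub (F := Set.range u) (G := Set.range u) le_rfl) le_rfl ?_ le_rfl
    rintro _ ⟨w, rfl⟩
    exact ⟨w, rfl⟩
  | @snoc s C g ih =>
    have h1 := CMP_gate (F := Set.range u ∪ Set.range fun (w : Fin (N + s)) (x : Fin n → Bool) =>
      C.val (fun i => u i x) w) (fun (w : Fin (N + s)) (x : Fin n → Bool) => C.val (fun i => u i x) w)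
      (fun w => Or.inr ⟨w, rfl⟩) g
    refine RN.mono (RN.trans ih h1) le_rfl ?_ le_rfl
    rintro _ ⟨w, rfl⟩
    refine Fin.lastCases ?_ (fun w => ?_) w
    · right
      rw [Set.mem_singleton_iff]
      funext x
      exact Fin.snoc_last (α := fun _ => Bool) _ _
    · left
      refine ⟨w, ?_⟩
      funext x
      exact (Fin.snoc_castSucc (α := fun _ => Bool) _ _ w).symm

end Pool.Agent.SGC
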