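import Pool.Agent.helper45.SGC.Spec

/-!
# Row `sy:EQV` of project SGC (`MP_069684_lc`)
-/

set_option autoImplicit false

namespace Pool.Agent.SGC

open Finset Pool.Agent.helper38.Neg Pool.Agent.helper55.NT

theorem EQV_add : ∀ x y z : ZMod 2, x + y = z ↔ x = z + y := by decide

theorem EQV : EQV_stmt := by
  intro n r v b γ
  funext p
  simp only [Function.comp_apply]
  unfold inst
  rw [decide_eq_decide]
  by_cases h : ∃ c : Cl (tv n), pos c = p
  · obtain ⟨⟨i, a⟩, rfl⟩ := h
    rw [fl_pos]
    constructor
    · rintro ⟨e, a', h1, h2⟩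
      have h3 := pos_injective h1
      have h4 : v e = i := congrArg Prod.fst h3
      have h5 : a' = fun k => a k + γ (i k) := congrArg Prod.snd h3
      refine ⟨e, a, by rw [h4], ?_⟩
      rw [h5, sum_add_distrib] at h2
      show ∑ k, a k = b e + ∑ k, γ (v e k)
      rw [h4]
      exact (EQV_add _ _ _).1 h2
    · rintro ⟨e, a', h1, h2⟩
      have h3 := pos_injective h1
      have h4 : v e = i := congrArg Prod.fst h3
      have h5 : a' = a := congrArg Prod.snd h3
      refine ⟨e, fun k => a k + γ (i k), ?_, ?_⟩
      · unfold flc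
        rw [h4]
      · rw [sum_add_distrib, EQV_add]
        have h6 : ∑ k, a' k = b e + ∑ k, γ (v e k) := h2
        rw [h5, h4] at h6
        exact h6
  · push Not at h
    rw [fl_of_not γ p h]
    constructor
    · rintro ⟨e, a', h1, h2⟩
      exact absurd h1 (h _)
    · rintro ⟨e, a', h1, h2⟩
      exact absurd h1 (h _)

end Pool.Agent.SGC
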